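import Pool.Agent.Lib.helper23.Ell1

set_option autoImplicit false
open Set Filter Topology Function
open Pool.Agent.Lib.helper23.Ell1

namespace Pool.Agent.H.MP_ff7d48

abbrev Cy := List (Option Bool)

variable {V W : Type} [AddCommGroup V] [Module ℝ V] [AddCommGroup W] [Module ℝ W]

noncomputable def mid (f : Bool → V) : V := (1 / 2 : ℝ) • (f false + f true)

noncomputable def fill : Cy → (List Bool → V) → V
  | [], f => f []
  | some σ :: p, f => fill p fun a => f (σ :: a)
  | none :: p, f => fill p fun a => mid fun σ => f (σ :: a)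

theorem mid_const (v : V) : mid (fun _ => v) = v := by unfold mid; module

theorem mid_map (L : V →ₗ[ℝ] W) (f : Bool → V) : L (mid f) = mid fun σ => L (f σ) := by
  simp [mid]

theorem fill_map (L : V →ₗ[ℝ] W) (p : Cy) (f : List Bool → V) :
    L (fill p f) = fill p fun a => L (f a) := by
  induction p generalizing f with
  | nil => rfl
  | cons o p ih => cases o <;> simp only [fill, ih, mid_map]

theorem fill_add (p : Cy) (f g : List Bool → V) :
    fill p (fun a => f a + g a) = fill p f + fill p g := by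
  induction p generalizing f g with
  | nil => rfl
  | cons o p ih =>
    cases o <;> simp only [fill, ← ih]
    congr 1; ext a; unfold mid; module

theorem fill_smul (p : Cy) (c : ℝ) (f : List Bool → V) :
    fill p (fun a => c • f a) = c • fill p f := (fill_map (c • LinearMap.id) p f).symm

theorem fill_sub (p : Cy) (f g : List Bool → V) :
    fill p (fun a => f a - g a) = fill p f - fill p g := by
  rw [eq_sub_iff_add_eq, ← fill_add]; simp

theorem fill_mid (p : Cy) (f : Bool → List Bool → V) :
    fill p (fun a => mid fun σ => f σ a) = mid fun σ => fill p (f σ) := by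
  simp only [mid, fill_smul, fill_add]

theorem fill_mem {s : Set V} (hs : Convex ℝ s) (p : Cy) (f : List Bool → V)
    (h : ∀ a, a.length = p.length → f a ∈ s) : fill p f ∈ s := by
  induction p generalizing f with
  | nil => exact h _ rfl
  | cons o p ih =>
    cases o
    · refine ih _ fun a ha => ?_
      rw [mid, smul_add]
      exact hs (h _ (by simp [ha])) (h _ (by simp [ha])) (by norm_num) (by norm_num) (by norm_num)
    · exact ih _ fun a ha => h _ (by simp [ha])

theorem fill_congr (p : Cy) {f g : List Bool → V} (h : ∀ a, a.length = p.length → f a = g a) :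
    fill p f = fill p g := by
  rw [← sub_eq_zero, ← fill_sub]
  exact fill_mem (convex_singleton 0) _ _ fun a ha => sub_eq_zero.2 (h a ha)

theorem fill_some (t : List Bool) (f : List Bool → V) : fill (t.map some) f = f t := by
  induction t generalizing f with
  | nil => rfl
  | cons σ t ih => exact ih _

theorem fill_app (q p : Cy) (f : List Bool → V) :
    fill (q ++ p) f = fill p fun a => fill q fun c => f (c ++ a) := by
  induction q generalizing f with
  | nil => rfl
  | cons o q ih => cases o <;> exact ih _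

noncomputable def dn (k : ℕ) (p : Cy) (f : List Bool → V) : V := fill (List.replicate k none ++ p) f

theorem dn_zero (p : Cy) (f : List Bool → V) : dn 0 p f = fill p f := rfl

theorem dn_succ (k : ℕ) (p : Cy) (f : List Bool → V) :
    dn (k + 1) p f = dn k p fun a => mid fun σ => f (σ :: a) := rfl

theorem dn_dn (k j : ℕ) (p : Cy) (f : List Bool → V) :
    dn k p (fun a => dn j (a.map some) f) = dn (k + j) p f := by
  simp only [dn, add_comm k, List.replicate_add, List.append_assoc, fill_app (List.replicate j none),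
    fill_some]

theorem dn_top (k : ℕ) (t : List Bool) (f : List Bool → V) :
    dn (k + 1) (t.map some) f = mid fun σ => dn k ((σ :: t).map some) f := by
  rw [add_comm, ← dn_dn, dn_succ, dn_zero, fill_some]

theorem dn_mem {s : Set V} (hs : Convex ℝ s) (k : ℕ) (p : Cy) (f : List Bool → V)
    (h : ∀ a, a.length = k + p.length → f a ∈ s) : dn k p f ∈ s :=
  fill_mem hs _ _ fun a ha => h a (by simpa using ha)

theorem dn_congr (k : ℕ) (p : Cy) {f g : List Bool → V}
    (h : ∀ a, a.length = k + p.length → f a = g a) : dn k p f = dn k p g :=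
  fill_congr _ fun a ha => h a (by simpa using ha)

theorem dn_mart {w : List Bool → V} (h : ∀ t, w t = mid fun σ => w (σ :: t)) (k : ℕ)
    (t : List Bool) : dn k (t.map some) w = w t := by
  induction k with
  | zero => exact fill_some _ _
  | succ k ih => simp only [dn_succ, ← h, ih]

open Classical in
noncomputable def msk (A : Set ℕ) : List Bool → Cy
  | [] => []
  | σ :: t => (if t.length ∈ A then some σ else none) :: msk A t

theorem msk_len (A : Set ℕ) (t : List Bool) : (msk A t).length = t.length := by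
  induction t with
  | nil => rfl
  | cons σ t ih => simp [msk, ih]

theorem msk_mid (A : Set ℕ) (t : List Bool) (f : List Bool → V) :
    mid (fun σ => fill (msk A (σ :: t)) f) = dn 1 (msk A t) f := by
  by_cases h : t.length ∈ A <;> simp only [msk, h, if_true, if_false, dn_succ, dn_zero, fill]
  exacts [(fill_mid _ _).symm, mid_const _]

theorem dn_msk (A : Set ℕ) (k : ℕ) (t : List Bool) (f : List Bool → V) :
    dn k (t.map some) (fun a => fill (msk A a) f) = dn k (msk A t) f := by
  induction k generalizing f with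
  | zero => exact fill_some _ _
  | succ k ih => simp only [dn_succ, msk_mid, dn_zero, ih]

theorem stop (M : ℕ) (f : List Bool → V) : ∃ w : List Bool → V,
    (∀ t, w t = mid fun σ => w (σ :: t)) ∧ (∀ s, Convex ℝ s → (∀ a, f a ∈ s) → ∀ t, w t ∈ s) ∧
    ∀ g : V →ₗ[ℝ] ℝ, (∀ t, g (f t) = mid fun σ => g (f (σ :: t))) →
      (∀ σ t, M ≤ t.length → g (f (σ :: t)) = g (f t)) → ∀ t, g (w t) = g (f t) := by
  let w : List Bool → V := List.rec (motive := fun _ => V) (dn M [] f) fun σ t v =>
    if t.length < M then dn (M - (t.length + 1)) ((σ :: t).map some) f else v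
  have e : ∀ σ t, w (σ :: t) =
    if t.length < M then dn (M - (t.length + 1)) ((σ :: t).map some) f else w t := fun _ _ => rfl
  have e1 : ∀ t, t.length ≤ M → w t = dn (M - t.length) (t.map some) f := by
    rintro (_ | ⟨σ, t⟩) h
    exacts [rfl, if_pos h]
  refine ⟨w, fun t => ?_, fun s hs h t => ?_, fun g g1 g2 t => ?_⟩
  · by_cases h : t.length < M <;> simp only [e, h, if_true, if_false, mid_const]
    rw [e1 t h.le, ← dn_top]
    congr 1; omega
  · induction t with
    | nil => exact dn_mem hs _ _ _ fun a _ => h a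
    | cons σ t ih =>
      rw [e]
      split_ifs
      exacts [dn_mem hs _ _ _ fun a _ => h a, ih]
  · have k := fun k t => (fill_map g _ f).trans (dn_mart g1 k t)
    induction t with
    | nil => exact k M []
    | cons σ t ih =>
      rw [e]
      split_ifs with h
      exacts [k _ _, ih.trans (g2 σ t (not_lt.1 h)).symm]

def sg : Option Bool → ℝ
  | none => 0
  | some true => 1
  | some false => -1

def rd (j : ℕ) : Cy → ℝ
  | [] => 0
  | o :: p => if p.length = j then sg o else rd j p

theorem rd_le (j : ℕ) (p : Cy) : ‖rd j p‖ ≤ 1 := by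
  induction p with
  | nil => simp [rd]
  | cons o p ih =>
    rw [rd]
    split_ifs
    · rcases o with _ | _ | _ <;> simp [sg]
    · exact ih

theorem rd_zero {j : ℕ} {p : Cy} (h : p.length ≤ j) : rd j p = 0 := by
  induction p with
  | nil => rfl
  | cons o p ih =>
    rw [List.length_cons] at h
    rw [rd, if_neg (by omega), ih (by omega)]

theorem rd_none (j : ℕ) (p : Cy) : rd j (none :: p) = rd j p := by
  rw [rd]
  split_ifs with h
  exacts [(rd_zero h.le).symm, rfl]

theorem rd_fill (j : ℕ) (p : Cy) : fill p (fun a => rd j (a.map some)) = rd j p := by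
  induction p with
  | nil => rfl
  | cons o p ih =>
    by_cases h : p.length = j
    · rw [rd, if_pos h]
      cases o <;> refine fill_mem (convex_singleton _) p _ fun a ha => ?_ <;>
        simp [rd, ha, h, mid, sg]
    · rw [rd, if_neg h, ← ih]
      cases o <;> refine fill_congr p fun a ha => ?_ <;> simp [rd, ha, h, mid_const]

theorem rd_dn (j k : ℕ) (p : Cy) : dn k p (fun a => rd j (a.map some)) = rd j p := by
  rw [dn, rd_fill]
  induction k with
  | zero => rfl
  | succ k ih => exact (rd_none _ _).trans ih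

theorem rd_msk (j : ℕ) (A : Set ℕ) (t : List Bool) :
    rd j (msk A t) = mid fun σ => rd j (msk A (σ :: t)) := by
  simp only [← rd_fill j (msk A (_ :: t)), msk_mid, rd_dn]

theorem adf : ∃ A : (ℕ → Bool) → Set ℕ, (∀ b, (A b).Infinite) ∧
    ∀ b c, b ≠ c → ∃ M, ∀ j ≥ M, j ∈ A b → j ∉ A c := by
  let A : (ℕ → Bool) → Set ℕ := fun b => range fun k => Encodable.encode (PiNat.res b k)
  refine ⟨A, fun b => infinite_range_of_injective fun k l h => by
    simpa using congrArg List.length (Encodable.encode_injective h), fun b c h => ?_⟩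
  obtain ⟨n, hn⟩ := ne_iff.1 h
  obtain ⟨M, hM⟩ := ((finite_Iic n).image fun k => Encodable.encode (PiNat.res b k)).bddAbove
  refine ⟨M + 1, ?_⟩
  rintro _ h1 ⟨k, rfl⟩ ⟨l, hl⟩
  have h2 := Encodable.encode_injective hl
  obtain rfl : l = k := by simpa using congrArg List.length h2
  rcases le_or_gt l n with h3 | h3
  · exact absurd (hM ⟨l, h3, rfl⟩) (not_le.2 h1)
  · exact hn (PiNat.res_eq_res.1 h2 h3).symm

theorem notree {ι : Type} {ψ : List Bool → L1 ℝ ι} {C : ℝ} (h1 : ∀ t, ‖ψ t‖ ≤ C)
    (h2 : ∀ t, ψ t = mid fun σ => ψ (σ :: t)) {A : Set ℕ} (hA : A.Infinite)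
    (h3 : ∀ t, t.length ∈ A → 1 ≤ ‖ψ (true :: t) - ψ t‖) : False := by
  classical
  have bd : BddAbove (range fun t => ‖ψ t‖) := ⟨C, forall_mem_range.2 h1⟩
  obtain ⟨t0, k0⟩ := exists_lt_of_lt_ciSup (sub_lt_self (⨆ t, ‖ψ t‖) (show (0 : ℝ) < 1 / 8 by norm_num))
  have k1 := le_ciSup bd
  generalize ⨆ t, ‖ψ t‖ = M at k0 k1
  obtain ⟨F, hF⟩ := ((hs (ψ t0)).eventually (lt_mem_nhds k0)).exists
  have e : ∀ t i, ψ t i = (ψ (false :: t) i + ψ (true :: t) i) / 2 := fun t i => by
    rw [h2 t, mid, lp.coeFn_smul, lp.coeFn_add]; simp; ring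
  have tl : ∀ v : L1 ℝ ι, HasSum (fun i => if i ∈ F then 0 else ‖v i‖) (‖v‖ - ∑ i ∈ F, ‖v i‖) :=
    fun v => by
      have := (hs v).sub (hasSum_sum_of_ne_finset_zero (f := fun i => if i ∈ F then ‖v i‖ else 0)
        (s := F) fun i hi => if_neg hi)
      rw [Finset.sum_congr rfl fun i hi => if_pos hi] at this
      exact this.congr_fun fun i => by split_ifs <;> simp
  obtain ⟨m, hm⟩ : ∃ m : List Bool → ℝ, ∀ t,
    m t = M - ∑ i ∈ F, SignType.sign (ψ t0 i) * ψ t i := ⟨_, fun _ => rfl⟩
  obtain ⟨Q, hQ⟩ : ∃ Q : List Bool → ℝ, ∀ t, Q t = ∑ i ∈ F, ψ t i ^ 2 := ⟨_, fun _ => rfl⟩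
  have m1 : ∀ t, ‖ψ t‖ - ∑ i ∈ F, ‖ψ t i‖ ≤ m t := fun t => hm t ▸ sub_le_sub (k1 t)
    (Finset.sum_le_sum fun i _ => by
      generalize SignType.sign (ψ t0 i) = z
      cases z <;> simp [le_abs_self, neg_le_abs])
  have m2 : ∀ t, 0 ≤ m t := fun t => ((tl _).nonneg fun i => by positivity).trans (m1 t)
  have m3 : m t0 < 1 / 8 := by
    simp only [hm, sign_mul_self, ← Real.norm_eq_abs]; linarith
  have m4 : ∀ t, m t = (m (false :: t) + m (true :: t)) / 2 := fun t => by
    have : ∑ i ∈ F, SignType.sign (ψ t0 i) * ψ t i = (∑ i ∈ F, SignType.sign (ψ t0 i) *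
        ψ (false :: t) i + ∑ i ∈ F, SignType.sign (ψ t0 i) * ψ (true :: t) i) / 2 := by
      rw [← Finset.sum_add_distrib, Finset.sum_div]
      exact Finset.sum_congr rfl fun i _ => by rw [e t i]; ring
    simp only [hm]; linarith
  have q1 : ∀ t, 0 ≤ Q t := fun t => hQ t ▸ Finset.sum_nonneg fun _ _ => sq_nonneg _
  have q2 : ∀ t, Q t ≤ F.card * M ^ 2 := fun t => by
    rw [hQ, ← nsmul_eq_mul]
    exact Finset.sum_le_card_nsmul _ _ _ fun i _ => sq_le_sq' (by
      linarith [neg_abs_le (ψ t i), k1 t, show |ψ t i| ≤ _ from lp.norm_apply_le_norm one_ne_zero (ψ t) i])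
      ((le_abs_self _).trans ((lp.norm_apply_le_norm one_ne_zero (ψ t) i).trans (k1 t)))
  have q3 : ∀ t, (Q (false :: t) + Q (true :: t)) / 2 =
      Q t + ∑ i ∈ F, ‖(ψ (true :: t) - ψ t) i‖ ^ 2 := fun t => by
    simp only [hQ, ← Finset.sum_add_distrib, Finset.sum_div]
    exact Finset.sum_congr rfl fun i _ => by
      rw [Real.norm_eq_abs, sq_abs, lp.coeFn_sub, Pi.sub_apply, e t i]; ring
  generalize F.card * M ^ 2 = q at q2
  have q0 := (q1 t0).trans (q2 t0)
  obtain ⟨G, hG⟩ : ∃ G : List Bool → ℝ, ∀ t, G t = Q t - 8 * (q + 1) * m t := ⟨_, fun _ => rfl⟩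
  have g1 : BddAbove (range G) := ⟨q, forall_mem_range.2 fun t => by
    have := m2 t; rw [hG]; exact (sub_le_self _ (by positivity)).trans (q2 t)⟩
  have g2 : ∀ t, (G (false :: t) + G (true :: t)) / 2 =
      G t + ∑ i ∈ F, ‖(ψ (true :: t) - ψ t) i‖ ^ 2 := fun t => by
    rw [hG, hG, hG, m4 t]; linarith [q3 t]
  have g3 : ∀ t k, ∃ s, s.length = t.length + k ∧ G t ≤ G s := fun t k => by
    induction k with
    | zero => exact ⟨t, rfl, le_rfl⟩
    | succ k ih =>
      obtain ⟨s, s1, s2⟩ := ih
      have := g2 s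
      have := Finset.sum_nonneg fun i (_ : i ∈ F) => sq_nonneg ‖(ψ (true :: s) - ψ s) i‖
      rcases le_total (G (false :: s)) (G (true :: s)) with h | h
      exacts [⟨true :: s, by simp [s1, add_assoc], by linarith⟩,
        ⟨false :: s, by simp [s1, add_assoc], by linarith⟩]
  have N0 := Nat.cast_nonneg (α := ℝ) F.card
  have N1 : (0 : ℝ) < 4 * F.card + 4 := by linarith
  have η0 := one_div_pos.2 N1
  have η1 : (1 : ℝ) / (4 * F.card + 4) ≤ 1 := by rw [div_le_one N1]; linarith
  obtain ⟨t1, k2⟩ := exists_lt_of_lt_ciSup (sub_lt_self (⨆ t, G t) η0)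
  obtain ⟨j, j1, j2⟩ := hA.exists_gt t1.length
  obtain ⟨t, k3, k4⟩ := g3 t1 (j - t1.length)
  have k5 := le_ciSup g1
  have k6 : m t ≤ 1 / 2 := by
    have := k5 t0
    rw [hG] at this
    rw [hG t] at k4
    nlinarith [q1 t0, q2 t, m2 t]
  have k7 := hasSum_le (fun i => ?_) (tl (ψ (true :: t) - ψ t))
    (((tl (ψ (false :: t))).add (tl (ψ (true :: t)))).div_const 2)
  · have k8 := sq_sum_le_card_mul_sum_sq (s := F) (f := fun i => ‖(ψ (true :: t) - ψ t) i‖)
    have k9 : ∑ i ∈ F, ‖(ψ (true :: t) - ψ t) i‖ ^ 2 ≤ 1 / (4 * F.card + 4) := by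
      linarith [g2 t, k5 (false :: t), k5 (true :: t)]
    have k10 : 1 / 2 ≤ ∑ i ∈ F, ‖(ψ (true :: t) - ψ t) i‖ := by
      linarith [h3 t (by rwa [k3, Nat.add_sub_cancel' j2.le]), m1 (false :: t), m1 (true :: t), m4 t]
    have k11 := k8.trans (mul_le_mul_of_nonneg_left k9 (Nat.cast_nonneg _))
    rw [mul_one_div, le_div_iff₀ N1] at k11
    nlinarith [mul_le_mul_of_nonneg_right (pow_le_pow_left₀ (by norm_num) k10 2) N1.le]
  · split_ifs
    · simp
    · rw [lp.coeFn_sub, Pi.sub_apply, e t i]
      simp only [Real.norm_eq_abs]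
      exact abs_le.2 ⟨by linarith [le_abs_self (ψ (false :: t) i), neg_abs_le (ψ (true :: t) i)],
        by linarith [neg_abs_le (ψ (false :: t) i), le_abs_self (ψ (true :: t) i)]⟩

end Pool.Agent.H.MP_ff7d48
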