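import Pool.Agent.H.MP_ff7d48.A

set_option autoImplicit false
open Set Filter Topology Function TopologicalSpace
open Pool.Agent.Lib.helper23.Ell1

namespace Pool.Agent.H.MP_ff7d48

theorem lift' {ι E : Type} [DecidableEq ι] [NormedAddCommGroup E] [NormedSpace ℝ E]
    [CompleteSpace E] {C : ℝ} (hC : 0 < C) (v : ι → E) (h : ∀ i, ‖v i‖ ≤ C) :
    ∃ T : L1 ℝ ι →L[ℝ] E, ‖T‖ ≤ C ∧ ∀ i, T (e ℝ i) = v i := by
  obtain ⟨T, t1, t2, -⟩ := lift (K := ℝ) (fun i => C⁻¹ • v i) fun i => by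
    rw [norm_smul, norm_inv, Real.norm_of_nonneg hC.le]
    exact (inv_mul_le_one₀ hC).2 (h i)
  refine ⟨C • T, ?_, fun i => by rw [smul_apply, t2, smul_inv_smul₀ hC.ne']⟩
  rw [norm_smul, Real.norm_of_nonneg hC.le]
  exact mul_le_of_le_one_right hC.le t1

theorem ulim {x : ℕ → ℝ} {C : ℝ} (h : ∀ n, ‖x n‖ ≤ C) :
    ∃ l, Tendsto x (hyperfilter ℕ) (𝓝 l) :=
  ((isCompact_closedBall 0 C).ultrafilter_le_nhds ((hyperfilter ℕ).map x) (le_principal_iff.2
    (mem_map.2 (univ_mem' fun n => mem_closedBall_zero_iff.2 (h n))))).imp fun _ h => h.2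

theorem csupp {ι : Type} {s : Set (L1 ℝ ι)} (h : IsSeparable s) :
    ∃ c : Set ι, c.Countable ∧ ∀ v ∈ s, ∀ i ∉ c, v i = 0 := by
  obtain ⟨c, c1, c2⟩ := h
  refine ⟨_, c1.biUnion fun v _ => (hs v).summable.countable_support, fun v hv i hi => ?_⟩
  exact closure_minimal (t := {v : L1 ℝ ι | v i = 0}) (fun w hw => norm_eq_zero.1 (by_contra
    fun k => hi (mem_biUnion hw k))) (isClosed_eq (lp.evalCLM ℝ _ 1 i).continuous continuous_const)
    (c2 hv)

theorem dn_map {V W : Type} [NormedAddCommGroup V] [NormedSpace ℝ V] [NormedAddCommGroup W]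
    [NormedSpace ℝ W] (L : V →L[ℝ] W) (k : ℕ) (p : Cy) (f : List Bool → V) :
    L (dn k p f) = dn k p fun a => L (f a) := fill_map L.toLinearMap _ _

theorem dn_norm {V : Type} [NormedAddCommGroup V] [NormedSpace ℝ V] {C : ℝ} (k : ℕ) (p : Cy)
    {f : List Bool → V} (h : ∀ a, ‖f a‖ ≤ C) : ‖dn k p f‖ ≤ C :=
  mem_closedBall_zero_iff.1 (dn_mem (convex_closedBall 0 C) _ _ _ fun a _ =>
    mem_closedBall_zero_iff.2 (h a))

theorem dn_add {V : Type} [AddCommGroup V] [Module ℝ V] (k : ℕ) (p : Cy) (f g : List Bool → V) :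
    dn k p (fun a => f a + g a) = dn k p f + dn k p g := fill_add _ _ _

theorem dn_sub {V : Type} [AddCommGroup V] [Module ℝ V] (k : ℕ) (p : Cy) (f g : List Bool → V) :
    dn k p (fun a => f a - g a) = dn k p f - dn k p g := fill_sub _ _ _

abbrev Ga : Type := (Cy × ℕ) ⊕ ((ℕ → Bool) × List Bool)

noncomputable instance : DecidableEq Ga := Classical.decEq _

noncomputable def y (p : Cy) (k : ℕ) : L1 ℝ Ga := e ℝ (.inl (p, k))

noncomputable def z (b : ℕ → Bool) (t : List Bool) : L1 ℝ Ga := e ℝ (.inr (b, t))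

variable (A : (ℕ → Bool) → Set ℕ)

noncomputable def lam (j : ℕ) : Ga → L1 ℝ Ga
  | .inl (p, k) => y p (k + j) - dn k p fun a => y (a.map some) j
  | .inr (b, t) => dn j (t.map some) (fun a => z b a - y (msk (A b) a) 0) + y (msk (A b) t) j

noncomputable def Z : Submodule ℝ (L1 ℝ Ga) :=
  (Submodule.span ℝ (range fun i : Ga × ℕ => e ℝ i.1 - lam A i.2 i.1)).topologicalClosure

noncomputable def rel (γ : Ga) (j : ℕ) : Z A :=
  ⟨e ℝ γ - lam A j γ, Submodule.le_topologicalClosure _ (Submodule.subset_span ⟨(γ, j), rfl⟩)⟩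

instance : CompleteSpace (Z A) := (Submodule.isClosed_topologicalClosure _).completeSpace_coe

theorem lam_le (j : ℕ) (γ : Ga) : ‖lam A j γ‖ ≤ 3 := by
  rcases γ with ⟨p, k⟩ | ⟨b, t⟩
  · exact norm_sub_le_of_le (norm_e _).le (dn_norm _ _ fun a => (norm_e _).le.trans one_le_two)
      |>.trans_eq (by norm_num)
  · exact norm_add_le_of_le (dn_norm _ _ fun a => norm_sub_le_of_le (norm_e _).le (norm_e _).le)
      (norm_e _).le |>.trans_eq (by norm_num)

theorem rel_le (γ : Ga) (j : ℕ) : ‖rel A γ j‖ ≤ 4 :=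
  (norm_sub_le_of_le (norm_e _).le (lam_le A j γ)).trans_eq (by norm_num)

theorem kill {E : Type} [NormedAddCommGroup E] [NormedSpace ℝ E] (T : L1 ℝ Ga →L[ℝ] E)
    (h : ∀ γ j, T (lam A j γ) = T (e ℝ γ)) (v : Z A) : T v = 0 :=
  closure_minimal (t := {v | T v = 0}) (Submodule.span_le (p := LinearMap.ker T.toLinearMap).2
    (range_subset_iff.2 fun i => (map_sub T _ _).trans (sub_eq_zero.2 (h _ _).symm)))
    (isClosed_eq T.continuous continuous_const) v.2

theorem rel_id (b : ℕ → Bool) (t : List Bool) (j : ℕ) :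
    rel A (.inr (b, t)) (j + 1) - mid (fun σ => rel A (.inr (b, σ :: t)) j) =
    rel A (.inr (b, t)) 1 - mid (fun σ => rel A (.inr (b, σ :: t)) 0) +
      rel A (.inl (msk (A b) t, 1)) j - mid fun σ => rel A (.inl (msk (A b) (σ :: t), 0)) j := by
  refine Subtype.ext ?_
  have k1 := dn_top j t fun a => z b a - y (msk (A b) a) 0
  have k2 := dn_top 0 t fun a => z b a - y (msk (A b) a) 0
  have k3 := msk_mid (A b) t fun a => y (a.map some) j
  simp only [mid, zero_add, ← dn_zero] at k1 k2 k3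
  simp only [mid, rel, lam, Submodule.coe_sub, Submodule.coe_add, Submodule.coe_smul, k1, k2, ← k3,
    zero_add, add_comm 1 j]
  simp only [y]
  module

theorem psi (b : ℕ → Bool) (h : ∀ c, b ≠ c → ∃ M, ∀ j ≥ M, j ∈ A b → j ∉ A c) :
    ∃ T : L1 ℝ Ga →L[ℝ] L1 ℝ Cy, (∀ v : Z A, T v = 0) ∧ ∀ j ∈ A b, ∃ g : L1 ℝ Cy →L[ℝ] ℝ,
      ‖g‖ ≤ 1 ∧ (∀ t, g (T (z b t)) = rd j (msk (A b) t)) ∧
        ∀ γ, (∀ t, γ ≠ .inr (b, t)) → g (T (e ℝ γ)) = 0 := by
  choose g g1 g2 using fun j => lift' one_pos (rd j) (rd_le j)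
  have : ∀ c, ∃ w : List Bool → L1 ℝ Cy, (∀ t, w t = mid fun σ => w (σ :: t)) ∧ (∀ t, ‖w t‖ ≤ 1) ∧
      (c = b → ∀ t, w t = 0) ∧ (c ≠ b → ∀ j ∈ A b, ∀ t, g j (w t) = rd j (msk (A c) t)) := fun c => by
    by_cases k : c = b
    · exact ⟨0, fun _ => (mid_const _).symm, by simp, fun _ _ => rfl, fun h => absurd k h⟩
    obtain ⟨M, hM⟩ := h c (Ne.symm k)
    obtain ⟨w, w1, w2, w3⟩ := stop M fun a => e ℝ (msk (A c) a)
    refine ⟨w, w1, fun t => mem_closedBall_zero_iff.1 (w2 _ (convex_closedBall 0 1) (fun a =>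
      mem_closedBall_zero_iff.2 (norm_e _).le) t), fun h => absurd h k, fun _ j hj t =>
      (w3 (g j).toLinearMap (fun t => ?_) (fun σ t ht => ?_) t).trans (g2 _ _)⟩
    all_goals simp only [ContinuousLinearMap.coe_coe, g2]
    · exact rd_msk _ _ _
    · rw [msk, rd, msk_len]
      split_ifs with k1 k2
      exacts [absurd (k1 ▸ k2) (hM j (k1 ▸ ht) hj), (rd_zero (by rw [msk_len, k1])).symm, rfl]
  choose w w1 w2 w3 w4 using this
  obtain ⟨T, -, t2⟩ := lift' two_pos (ι := Ga) (Sum.elim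
    (fun i => e ℝ i.1 - dn i.2 i.1 fun a => e ℝ (a.map some))
    fun i => e ℝ (msk (A i.1) i.2) - w i.1 i.2) (by
      rintro (⟨p, k⟩ | ⟨c, t⟩)
      exacts [(norm_sub_le_of_le (norm_e _).le (dn_norm _ _ fun a => (norm_e _).le)).trans_eq
        one_add_one_eq_two, (norm_sub_le_of_le (norm_e _).le (w2 _ _)).trans_eq one_add_one_eq_two])
  have t3 : ∀ p k, T (y p k) = e ℝ p - dn k p fun a => e ℝ (a.map some) := fun p k => t2 _
  have t4 : ∀ c t, T (z c t) = e ℝ (msk (A c) t) - w c t := fun p k => t2 _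
  refine ⟨T, kill A T ?_, fun j hj => ⟨g j, g1 j, fun t => by rw [t4, w3 b rfl, sub_zero, g2], ?_⟩⟩
  · rintro (⟨p, k⟩ | ⟨c, t⟩) j
    · refine Eq.trans ?_ (t3 p k).symm
      simp only [lam, map_sub, dn_map, t3, dn_sub, dn_dn]
      abel
    · refine Eq.trans ?_ (t4 c t).symm
      simp only [lam, map_sub, map_add, dn_map, t3, t4, dn_sub, dn_zero, dn_msk, dn_mart (w1 c)]
      abel
  · rintro (⟨p, k⟩ | ⟨c, t⟩) hγ
    · refine (congrArg (g j) (t3 p k)).trans ?_
      simp only [map_sub, dn_map, g2, rd_dn, sub_self]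
    · refine (congrArg (g j) (t4 c t)).trans ?_
      rw [map_sub, g2, w4 c (fun k => hγ t (by rw [k])) j hj, sub_self]

theorem notSE (h1 : ∀ b, (A b).Infinite) (h2 : ∀ b c, b ≠ c → ∃ M, ∀ j ≥ M, j ∈ A b → j ∉ A c)
    (R : Z A →L[ℝ] Z A) (hR : IsSeparable (range R))
    (h3 : ∀ i j, R (rel A (.inl i) j) = rel A (.inl i) j) : False := by
  obtain ⟨c, c1, c2⟩ := csupp (hR.image (Z A).subtypeL.continuous)
  obtain ⟨b, hb⟩ : ∃ b, ∀ t, (.inr (b, t) : Ga) ∉ c := by
    by_contra hc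
    push Not at hc
    choose t ht using hc
    have := c1.to_subtype
    have : Uncountable (ℕ → Bool) := Cardinal.aleph0_lt_mk_iff.1 (by simp [Cardinal.aleph0_lt_continuum])
    exact not_countable (α := ℕ → Bool) (Injective.countable (f := fun b => (⟨_, ht b⟩ : c))
      fun b b' k => congrArg Prod.fst (Sum.inr_injective (congrArg Subtype.val k)))
  obtain ⟨T, t1, t2⟩ := psi A b (h2 b)
  let S : Z A →L[ℝ] L1 ℝ Ga := (Z A).subtypeL ∘L (1 - R)
  let U : List Bool → ℕ → L1 ℝ Ga := fun t n => S (rel A (.inr (b, t)) (n - t.length))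
  have u1 : ∀ t n, ‖U t n‖ ≤ ‖S‖ * 4 := fun t n => S.le_opNorm_of_le (rel_le _ _ _)
  choose v hv using fun t i => ulim fun n =>
    (lp.norm_apply_le_norm one_ne_zero (U t n) i).trans (u1 t n)
  have hv' := fun t => tendsto_pi_nhds.2 (hv t)
  let V : List Bool → L1 ℝ Ga := fun t => ⟨v t, lp.memℓp_of_tendsto
    (isBounded_iff_forall_norm_le.2 ⟨_, forall_mem_range.2 (u1 t)⟩) (hv' t)⟩
  have v1 : ∀ t, ‖V t‖ ≤ ‖S‖ * 4 := fun t =>
    lp.norm_le_of_tendsto (f := V t) (.of_forall (u1 t)) (hv' t)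
  have ev : ∀ m, ∀ᶠ n in hyperfilter ℕ, m < n := fun m =>
    (eventually_gt_atTop m).filter_mono Nat.hyperfilter_le_atTop
  have v2 : ∀ t, V t - mid (fun σ => V (σ :: t)) =
      S (rel A (.inr (b, t)) 1 - mid fun σ => rel A (.inr (b, σ :: t)) 0) := fun t => by
    ext i
    refine tendsto_nhds_unique ((hv t i).sub (((hv (false :: t) i).add
      (hv (true :: t) i)).const_smul (1 / 2 : ℝ))) (tendsto_const_nhds.congr' ?_)
    filter_upwards [ev t.length] with n hn
    have k := congrArg S (rel_id A b t (n - (t.length + 1)))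
    have k1 : ∀ i j, S (rel A (.inl i) j) = 0 := fun i j => by simp [S, h3]
    have k2 := fun f => mid_map S.toLinearMap f
    simp only [ContinuousLinearMap.coe_coe] at k2
    rw [show n - (t.length + 1) + 1 = n - t.length by omega, map_sub, map_sub, map_add, k1, k2,
      k2 fun σ => rel A (.inl _) _] at k
    simp only [k1, mid_const, add_zero, sub_zero] at k
    rw [← k]; rfl
  have v3 : ∀ t s, V t (.inr (b, s)) = z b t (.inr (b, s)) := fun t s => by
    refine tendsto_nhds_unique (hv t _) (tendsto_const_nhds.congr' ?_)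
    filter_upwards [ev s.length, ev t.length] with n hn hn'
    have k := c2 _ ⟨_, ⟨rel A (.inr (b, t)) (n - t.length), rfl⟩, rfl⟩ _ (hb s)
    have k1 : ∀ p k, y p k (.inr (b, s)) = 0 := fun p k => (e_apply _ _).trans (if_neg nofun)
    have k2 : (dn (n - t.length) (t.map some) fun a => z b a - y (msk (A b) a) 0) (.inr (b, s)) = 0 :=
      dn_mem (LinearMap.ker (lp.evalCLM ℝ _ 1 (.inr (b, s) : Ga)).toLinearMap).convex _ _ _
        fun a ha => show z b a (.inr (b, s)) - y _ 0 _ = 0 by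
          rw [k1, sub_zero]
          refine (e_apply _ _).trans (if_neg fun k => ?_)
          obtain rfl : s = a := congrArg Prod.snd (Sum.inr_injective k)
          rw [List.length_map] at ha; omega
    change _ = (z b t _ - ((dn _ _ _ : L1 ℝ Ga) _ + y _ _ _)) - _
    rw [k1, k2, add_zero, sub_zero]
    exact (sub_zero _).symm.trans (congrArg _ k.symm)
  refine notree (ψ := fun t => T (V t)) (fun t => T.le_opNorm_of_le (v1 t)) (fun t => ?_) (h1 b)
    fun t ht => ?_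
  · refine (sub_eq_zero.1 ?_).trans (mid_map T.toLinearMap _)
    exact (map_sub T _ _).symm.trans ((congrArg T (v2 t)).trans (t1 ((1 - R) _)))
  obtain ⟨g, g1, g2, g3⟩ := t2 _ ht
  have k : ∀ s, g (T (V s)) = rd t.length (msk (A b) s) := fun s => by
    rw [← g2, ← sub_eq_zero, ← map_sub, ← map_sub]
    refine ((g ∘L T).hasSum (hs' (V s - z b s))).unique (hasSum_zero.congr_fun fun γ => ?_)
    rw [map_smul]
    by_cases k : ∀ t, γ ≠ .inr (b, t)
    · exact smul_eq_zero_of_right _ (g3 γ k)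
    · push Not at k
      obtain ⟨s', rfl⟩ := k
      exact smul_eq_zero_of_left (sub_eq_zero.2 (v3 s s')) _
  have := g.le_of_opNorm_le g1 (T (V (true :: t)) - T (V t))
  rwa [map_sub, k, k, rd_zero (msk_len _ t).le, msk, rd, if_pos (msk_len _ t), if_pos ht, sg,
    sub_zero, norm_one, one_mul] at this

end Pool.Agent.H.MP_ff7d48
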