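import Pool.Agent.H.MP_ff7d48.B
import Pool.Agent.H.MP_28dc43.A

set_option autoImplicit false
open Set Filter Topology Function TopologicalSpace
open Pool.Agent.H.MP_28dc43 (hull agree)

namespace Pool.Agent.H.MP_ff7d48

def Pl (X : Type) [NormedAddCommGroup X] [NormedSpace ℝ X] : Prop :=
  ∃ M : Set X, Dense (Submodule.span ℝ M : Set X) ∧ ∃ c : ℝ, 0 < c ∧ ∀ x : X, ∃ f : X →L[ℝ] ℝ,
    Set.Countable {m ∈ M | f m ≠ 0} ∧ ‖f‖ ≤ 1 ∧ c * ‖x‖ ≤ |f x|

def SCP (X : Type) [NormedAddCommGroup X] [NormedSpace ℝ X] : Prop :=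
  ∀ Y : Submodule ℝ X, IsSeparable (Y : Set X) → ∃ Z : Submodule ℝ X, Y ≤ Z ∧ IsClosed (Z : Set X) ∧
    IsSeparable (Z : Set X) ∧ ∃ P : X →L[ℝ] X, (∀ x, P x ∈ Z) ∧ ∀ z ∈ Z, P z = z

variable {X : Type} [NormedAddCommGroup X] [NormedSpace ℝ X]

theorem sepc {M Y : Set X} (hM : Dense (Submodule.span ℝ M : Set X)) (h : IsSeparable Y) :
    ∃ C ⊆ M, C.Countable ∧ Y ⊆ closure (Submodule.span ℝ C) := by
  obtain ⟨c, c1, c2⟩ := h
  choose u u1 u2 using fun x => mem_closure_iff_seq_limit.1 (hM x)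
  choose T t1 t2 using fun x n => Submodule.mem_span_finite_of_mem_span (u1 x n)
  refine ⟨⋃ x ∈ c, ⋃ n, T x n, iUnion₂_subset fun x _ => iUnion_subset (t1 x),
    c1.biUnion fun x _ => countable_iUnion fun n => (T x n).countable_toSet,
    c2.trans (closure_minimal (fun x hx => mem_closure_of_tendsto (u2 x) (.of_forall fun n =>
      Submodule.span_mono ((subset_iUnion (fun n => (T x n : Set X)) n).trans
        (subset_biUnion_of_mem (u := fun x => ⋃ n, (T x n : Set X)) hx)) (t2 x n))) isClosed_closure)⟩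

theorem Pl.scp [CompleteSpace X] (h : Pl X) : SCP X := fun Y hY => by
  obtain ⟨M, hM, c, hc, hN⟩ := h
  obtain ⟨C, c1, c2, c3⟩ := sepc hM hY
  obtain ⟨S, P, k⟩ := hull hM hc hN C
  obtain ⟨k1, k2⟩ := k c2
  refine ⟨(Submodule.span ℝ (M ∩ S)).topologicalClosure, c3.trans (closure_mono
    (Submodule.span_mono (subset_inter c1 k1))), Submodule.isClosed_topologicalClosure _,
    (k2.g0.mono inter_subset_right).isSeparable.span.closure, P, fun x => ?_,
    fun z hz => agree (g := .id ℝ X) (fun m hm => k2.g1 m hm.1 hm.2) hz⟩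
  refine closure_minimal (t := P ⁻¹' (Submodule.span ℝ (M ∩ S)).topologicalClosure) ?_
    ((Submodule.isClosed_topologicalClosure _).preimage P.continuous) (hM x)
  refine (Submodule.span_le (p := (Submodule.span ℝ (M ∩ S)).topologicalClosure.comap
    P.toLinearMap)).2 fun m hm => ?_
  change P m ∈ (Submodule.span ℝ (M ∩ S)).topologicalClosure
  by_cases hs : m ∈ S
  · rw [k2.g1 m hm hs]
    exact Submodule.le_topologicalClosure _ (Submodule.subset_span ⟨hm, hs⟩)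
  · rw [k2.g2 m hm hs]; exact zero_mem _

theorem notSCP {A : (ℕ → Bool) → Set ℕ} (h1 : ∀ b, (A b).Infinite)
    (h2 : ∀ b c, b ≠ c → ∃ M, ∀ j ≥ M, j ∈ A b → j ∉ A c) (i : Z A →L[ℝ] X) (p : X →L[ℝ] Z A)
    (h : ∀ x, p (i x) = x) : ¬SCP X := fun k => by
  obtain ⟨W, w1, -, w2, P, p1, p2⟩ := k (Submodule.span ℝ (range fun j : (Cy × ℕ) × ℕ =>
    i (rel A (.inl j.1) j.2))) (countable_range _).isSeparable.span
  refine notSE A h1 h2 (p ∘L P ∘L i) ((w2.image p.continuous).mono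
    (range_subset_iff.2 fun x => ⟨_, p1 _, rfl⟩)) fun j l => ?_
  exact (congrArg p (p2 _ (w1 (Submodule.subset_span ⟨(j, l), rfl⟩)))).trans (h _)

theorem exZ : ∃ A, ¬Pl (Z A) :=
  have ⟨A, h1, h2⟩ := adf; ⟨A, fun h => notSCP h1 h2 (.id ℝ _) (.id ℝ _) (fun _ => rfl) h.scp⟩

end Pool.Agent.H.MP_ff7d48
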