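import Pool.Agent.H.MP_ff7d48.C
import Pool.Agent.Lib.helper23.Eke

set_option autoImplicit false
open Set Filter Topology Function TopologicalSpace
open scoped InnerProductSpace BoundedContinuousFunction

namespace Pool.Agent.H.MP_ff7d48

theorem hil {V : Type} [AddCommGroup V] [Module ℝ V] (q : V →ₗ[ℝ] V →ₗ[ℝ] ℝ)
    (h1 : ∀ v w, q v w = q w v) (h2 : ∀ v, 0 ≤ q v v) : ∃ (H : Type) (_ : NormedAddCommGroup H)
    (_ : InnerProductSpace ℝ H) (_ : CompleteSpace H) (i : V →ₗ[ℝ] H), DenseRange i ∧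
      ∀ v, ‖i v‖ ^ 2 = q v v := by
  letI c : PreInnerProductSpace.Core ℝ V :=
    { inner := fun v w => q v w
      conj_inner_symm := fun v w => h1 w v
      re_inner_nonneg := h2
      add_left := fun u v w => by simp
      smul_left := fun u v r => by simp }
  letI : SeminormedAddCommGroup V := InnerProductSpace.Core.toSeminormedAddCommGroup (𝕜 := ℝ)
  letI : InnerProductSpace ℝ V := InnerProductSpace.ofCore c
  exact ⟨UniformSpace.Completion V, inferInstance, inferInstance, inferInstance,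
    (UniformSpace.Completion.toComplₗᵢ (𝕜 := ℝ)).toLinearMap, UniformSpace.Completion.denseRange_coe,
    fun v => (congrArg (· ^ 2) (UniformSpace.Completion.norm_coe v)).trans
      (real_inner_self_eq_norm_sq v).symm⟩

variable {α : Type} [TopologicalSpace α]

def Ps (μ : (α →ᵇ ℝ) →L[ℝ] ℝ) : Prop := ∀ f, 0 ≤ f → 0 ≤ μ f

def Hs (μ ρ : (α →ᵇ ℝ) →L[ℝ] ℝ) : Prop := ∃ C, 0 ≤ C ∧ ∀ f, ρ f ^ 2 ≤ C * μ (f * f)

def Sg (μ ν : (α →ᵇ ℝ) →L[ℝ] ℝ) : Prop :=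
  ∀ ε > 0, ∃ g h, 0 ≤ g ∧ 0 ≤ h ∧ 1 ≤ g + h ∧ μ g + ν h < ε

variable {μ ν ρ τ : (α →ᵇ ℝ) →L[ℝ] ℝ}

theorem Ps.mono (h : Ps μ) {f g : α →ᵇ ℝ} (k : f ≤ g) : μ f ≤ μ g := by
  have := h _ (sub_nonneg.2 k); rwa [map_sub, sub_nonneg] at this

theorem Ps.sq (h : Ps μ) (f : α →ᵇ ℝ) : 0 ≤ μ (f * f) := h _ fun x => mul_self_nonneg (f x)

theorem Ps.add (h : Ps μ) (k : Ps ν) : Ps (μ + ν) := fun f hf => add_nonneg (h f hf) (k f hf)

theorem Ps.norm (h : Ps μ) : ‖μ‖ ≤ μ 1 := μ.opNorm_le_bound (h 1 fun _ => zero_le_one) fun f => by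
  have k : ∀ f : α →ᵇ ℝ, μ f ≤ μ 1 * ‖f‖ := fun f => by
    rw [mul_comm, ← smul_eq_mul, ← map_smul]
    exact h.mono fun x => by simpa using (le_abs_self _).trans (f.norm_coe_le_norm x)
  exact abs_le.2 ⟨by have := k (-f); rw [map_neg, norm_neg] at this; linarith, k f⟩

theorem Ps.hs (h : Ps ρ) (k : Ps (μ - ρ)) : Hs μ ρ := ⟨ρ 1, h 1 fun _ => zero_le_one, fun f => by
  have := discrim_le_zero (a := ρ 1) (b := 2 * ρ f) (c := ρ (f * f)) fun t => by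
    have := h.sq (t • 1 + f)
    simp only [add_mul, mul_add, smul_mul_assoc, mul_smul_comm, one_mul, mul_one, map_add, map_smul,
      smul_eq_mul] at this
    linarith
  have k1 := k.sq f
  rw [sub_apply] at k1
  rw [discrim] at this
  nlinarith [h 1 fun _ => zero_le_one]⟩

theorem Hs.add {μ' ρ' : (α →ᵇ ℝ) →L[ℝ] ℝ} (p : Ps μ) (p' : Ps μ') (h : Hs μ ρ) (k : Hs μ' ρ') :
    Hs (μ + μ') (ρ + ρ') := by
  obtain ⟨C, c0, h⟩ := h
  obtain ⟨D, d0, k⟩ := k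
  refine ⟨2 * (C + D), by positivity, fun f => ?_⟩
  rw [add_apply, add_apply]
  nlinarith [h f, k f, sq_nonneg (ρ f - ρ' f), mul_nonneg c0 (p'.sq f), mul_nonneg d0 (p.sq f)]

theorem Hs.smul (h : Hs μ ρ) (c : ℝ) : Hs μ (c • ρ) := h.elim fun C h =>
  ⟨c ^ 2 * C, mul_nonneg (sq_nonneg c) h.1, fun f => by
    rw [smul_apply, smul_eq_mul, mul_pow, mul_assoc]
    exact mul_le_mul_of_nonneg_left (h.2 f) (sq_nonneg c)⟩

theorem Sg.symm (h : Sg μ ν) : Sg ν μ := fun ε e =>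
  have ⟨g, h, h1, h2, h3, h4⟩ := h ε e; ⟨h, g, h2, h1, add_comm g h ▸ h3, add_comm (μ g) _ ▸ h4⟩

theorem Sg.zero : Sg μ 0 := fun _ e => ⟨0, 1, le_rfl, fun _ => zero_le_one, by simp, by simpa⟩

theorem Sg.add (p : Ps ν) (p' : Ps τ) (h : Sg μ ν) (k : Sg μ τ) : Sg μ (ν + τ) := fun ε e => by
  obtain ⟨g, h, h1, h2, h3, h4⟩ := h _ (half_pos e)
  obtain ⟨g', h', k1, k2, k3, k4⟩ := k _ (half_pos e)
  refine ⟨g + g', h ⊓ h', add_nonneg h1 k1, le_inf h2 k2, ?_, ?_⟩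
  · rw [add_inf]
    exact le_inf (h3.trans (by gcongr; exact le_add_of_nonneg_right k1))
      (k3.trans (by gcongr; exact le_add_of_nonneg_left h1))
  · rw [map_add, add_apply]
    linarith [p.mono (inf_le_left (a := h) (b := h')), p'.mono (inf_le_right (a := h) (b := h'))]

theorem Sg.norm (p : Ps μ) (p' : Ps ν) (h : Sg μ ν) (h1 : Hs μ ρ) (h2 : Hs ν τ) :
    ‖ρ‖ ≤ ‖ρ + τ‖ := ρ.opNorm_le_of_unit_norm (norm_nonneg (ρ + τ)) fun f hf => by
  obtain ⟨C, c0, h1⟩ := h1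
  obtain ⟨D, d0, h2⟩ := h2
  refine le_of_forall_pos_le_add fun ε e => ?_
  obtain ⟨g, h, k1, k2, k3, k4⟩ := h ((ε / 2) ^ 2 / (C + D + 1)) (by positivity)
  have f1 : ∀ x, |f x| ≤ 1 := fun x => (f.norm_coe_le_norm x).trans hf.le
  have u0 : ∀ x, 0 ≤ (h ⊓ 1) x := le_inf k2 fun _ => zero_le_one
  have u1 : ∀ x, (h ⊓ 1) x ≤ 1 := inf_le_right (a := h) (b := 1)
  have u2 : ∀ x, (h ⊓ 1) x ≤ h x := inf_le_left (a := h) (b := 1)
  have u3 : ∀ x, 1 ≤ (g + h ⊓ 1) x := by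
    rw [add_inf]; exact le_inf k3 (le_add_of_nonneg_left k1)
  generalize h ⊓ 1 = u at u0 u1 u2 u3
  have f2 : ∀ x, f x ^ 2 ≤ 1 := fun x => (sq_le_one_iff_abs_le_one _).2 (f1 x)
  have a1 : ν (f * u * (f * u)) ≤ ν h := p'.mono fun x => by
    have := mul_le_mul (f2 x) (mul_le_of_le_one_right (u0 x) (u1 x)) (mul_self_nonneg _) zero_le_one
    change f x * u x * (f x * u x) ≤ h x
    linarith [u2 x]
  have a2 : μ ((f - f * u) * (f - f * u)) ≤ μ g := p.mono fun x => by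
    have := mul_le_mul (f2 x) (mul_le_of_le_one_right (sub_nonneg.2 (u1 x))
      (sub_le_self 1 (u0 x))) (mul_self_nonneg _) zero_le_one
    have k : 1 ≤ g x + u x := u3 x
    change (f x - f x * u x) * (f x - f x * u x) ≤ g x
    linarith
  have a3 : ‖f * u‖ ≤ 1 := (BoundedContinuousFunction.norm_le zero_le_one).2 fun x => by
    change |f x * u x| ≤ 1
    rw [abs_mul, abs_of_nonneg (u0 x)]
    exact mul_le_one₀ (f1 x) (u0 x) (u1 x)
  rw [lt_div_iff₀ (by positivity)] at k4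
  have a4 := p g k1
  have a5 := p' h k2
  have b1 : |τ (f * u)| ≤ ε / 2 := abs_le_of_sq_le_sq' ((h2 _).trans (by
    nlinarith [mul_le_mul_of_nonneg_left a1 d0])) (half_pos e).le |> abs_le.2
  have b2 : |ρ (f - f * u)| ≤ ε / 2 := abs_le_of_sq_le_sq' ((h1 _).trans (by
    nlinarith [mul_le_mul_of_nonneg_left a2 c0])) (half_pos e).le |> abs_le.2
  have b3 := ((ρ + τ).unit_le_opNorm _ a3)
  rw [add_apply, Real.norm_eq_abs, abs_le] at b3
  rw [map_sub, abs_le] at b2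
  rw [abs_le] at b1
  exact abs_le.2 ⟨by linarith, by linarith⟩

theorem notSg (p : Ps μ) (p' : Ps ν) (h : ¬Sg μ ν) :
    ∃ ρ, Ps ρ ∧ Ps (μ - ρ) ∧ Ps (ν - ρ) ∧ 0 < ρ 1 := by
  simp only [Sg, not_forall, not_exists, not_and, not_lt] at h
  obtain ⟨ε, e, h⟩ := h
  obtain ⟨ρ, hρ⟩ := geometric_hahn_banach_open_point
    (s := {f | ∃ g h, 0 ≤ g ∧ 0 ≤ h ∧ f ≤ g + h ∧ μ g + ν h < ε}) (x := 1) (by
      rintro f ⟨g, h, h1, h2, h3, h4⟩ f' ⟨g', h', k1, k2, k3, k4⟩ a b ha hb hab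
      refine ⟨a • g + b • g', a • h + b • h', fun x => add_nonneg (mul_nonneg ha (h1 x))
        (mul_nonneg hb (k1 x)), fun x => add_nonneg (mul_nonneg ha (h2 x)) (mul_nonneg hb (k2 x)),
        fun x => ?_, ?_⟩
      · change a * f x + b * f' x ≤ a * g x + b * g' x + (a * h x + b * h' x)
        have i1 : f x ≤ g x + h x := h3 x
        have i2 : f' x ≤ g' x + h' x := k3 x
        nlinarith
      · have := (convex_Iio ε) h4 k4 ha hb hab
        simp only [map_add, map_smul, smul_eq_mul, mem_Iio] at this ⊢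
        linarith)
    (isOpen_iff_mem_nhds.2 fun f ⟨g, h, h1, h2, h3, h4⟩ => by
      have : ∀ᶠ f' in 𝓝 f, μ (g + (f' - f) ⊔ 0) + ν h < ε :=
        (isOpen_lt (by fun_prop) continuous_const).mem_nhds (by simpa)
      exact this.mono fun f' k => ⟨_, h, add_nonneg h1 le_sup_right, h2, by
        rw [add_right_comm]
        exact (sub_le_iff_le_add'.1 le_sup_left).trans (by gcongr), k⟩)
    fun ⟨g, h', h1, h2, h3, h4⟩ => (h g h' h1 h2 h3).not_gt h4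
  have c0 : 0 < ρ 1 := by simpa using hρ 0 ⟨0, 0, le_rfl, le_rfl, by simp, by simpa⟩
  have k : ∀ f g h, 0 ≤ g → 0 ≤ h → f ≤ g + h → ε / ρ 1 * ρ f ≤ μ g + ν h := fun f g h h1 h2 h3 =>
    le_of_forall_gt fun c hc => by
      have c1 := (add_nonneg (p g h1) (p' h h2)).trans_lt hc
      have c2 := div_pos e c1
      have := hρ ((ε / c) • f) ⟨(ε / c) • g, (ε / c) • h, fun x => mul_nonneg c2.le (h1 x),
        fun x => mul_nonneg c2.le (h2 x), fun x => (mul_le_mul_of_nonneg_left (h3 x) c2.le).trans_eq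
          (mul_add _ _ _), by
        rw [map_smul, map_smul, ← smul_add, smul_eq_mul, div_mul_eq_mul_div, div_lt_iff₀ c1]
        exact mul_lt_mul_of_pos_left hc e⟩
      rw [map_smul, smul_eq_mul, div_mul_eq_mul_div, div_lt_iff₀ c1] at this
      rwa [div_mul_eq_mul_div, div_lt_iff₀ c0, mul_comm c]
  refine ⟨(ε / ρ 1) • ρ, fun f hf => ?_, fun f hf => ?_, fun f hf => ?_, mul_pos (div_pos e c0) c0⟩
  · simpa using k (-f) 0 0 le_rfl le_rfl (by simpa)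
  · simpa using k f f 0 hf le_rfl (by simp)
  · simpa using k f 0 f le_rfl hf (by simp)

theorem jordan (ν : (α →ᵇ ℝ) →L[ℝ] ℝ) : ∃ μ ρ, Ps μ ∧ Ps ρ ∧ ν = μ - ρ := by
  have cv : ConvexOn ℝ univ fun f : α →ᵇ ℝ => ‖f ⊔ 0‖ := ⟨convex_univ, fun f _ g _ a b ha hb _ =>
    (BoundedContinuousFunction.norm_le (by positivity)).2 fun x => by
      have a1 := (f ⊔ 0).norm_coe_le_norm x
      have a2 := (g ⊔ 0).norm_coe_le_norm x
      change |max (f x) 0| ≤ _ at a1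
      change |max (g x) 0| ≤ _ at a2
      change |max (a * f x + b * g x) 0| ≤ a * _ + b * _
      rw [abs_of_nonneg (le_max_right _ _)] at a1 a2 ⊢
      exact max_le (add_le_add (mul_le_mul_of_nonneg_left (le_of_max_le_left a1) ha)
        (mul_le_mul_of_nonneg_left (le_of_max_le_left a2) hb)) (by positivity)⟩
  obtain ⟨L, l1, l2⟩ := Pool.Agent.Lib.helper23.Eke.sandwich
    (fun x : (α →ᵇ ℝ) × (α →ᵇ ℝ) => ‖ν‖ • (‖x.1 ⊔ 0‖ + ‖x.2 ⊔ 0‖)) (by fun_prop)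
    (((cv.comp_linearMap (LinearMap.fst ℝ _ _)).add (cv.comp_linearMap (LinearMap.snd ℝ _ _))).smul
      (norm_nonneg ν) |>.subset (by simp) convex_univ) (by simp)
    (LinearMap.id.prod (-LinearMap.id)) ν.toLinearMap fun f => (le_abs_self _).trans
      ((ν.le_opNorm f).trans (mul_le_mul_of_nonneg_left (by
        have := norm_sub_le (f ⊔ 0) (-f ⊔ 0)
        rwa [← posPart_def, ← negPart_def, posPart_sub_negPart] at this) (norm_nonneg _)))
  refine ⟨L ∘L .inl ℝ _ _, L ∘L .inr ℝ _ _, fun f hf => ?_, fun f hf => ?_, ?_⟩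
  · have := l2 (-(f, 0))
    rw [map_neg] at this
    simpa [sup_eq_right.2 (neg_nonpos.2 hf)] using this
  · have := l2 (-(0, f))
    rw [map_neg] at this
    simpa [sup_eq_right.2 (neg_nonpos.2 hf)] using this
  · ext f
    refine (l1 f).symm.trans ?_
    simp [← map_sub]

theorem hb (p : Ps μ) : ∃ D : Set ((α →ᵇ ℝ) →L[ℝ] ℝ), (∀ d ∈ D, Hs μ d) ∧
    (∀ ρ, Hs μ ρ → ρ ∈ closure (Submodule.span ℝ D : Set ((α →ᵇ ℝ) →L[ℝ] ℝ))) ∧
    ∀ Φ : ((α →ᵇ ℝ) →L[ℝ] ℝ) →L[ℝ] ℝ, {d ∈ D | Φ d ≠ 0}.Countable := by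
  obtain ⟨H, _, _, _, i, i1, i2⟩ := hil ((LinearMap.mul ℝ (α →ᵇ ℝ)).compr₂ μ.toLinearMap)
    (fun v w => congrArg μ (mul_comm v w)) p.sq
  replace i2 : ∀ v, ‖i v‖ ^ 2 = μ (v * v) := i2
  let j := i.mkContinuous √‖μ‖ fun v => by
    refine abs_le_of_sq_le_sq' ?_ (by positivity) |>.2
    rw [i2, mul_pow, Real.sq_sqrt (norm_nonneg μ), sq]
    exact (le_abs_self _).trans (μ.le_opNorm_of_le (norm_mul_le v v))
  let J : H →L[ℝ] (α →ᵇ ℝ) →L[ℝ] ℝ := (ContinuousLinearMap.compL ℝ _ H ℝ).flip j ∘L innerSL ℝ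
  have hJ : ∀ h f, J h f = ⟪h, i f⟫_ℝ := fun _ _ => rfl
  obtain ⟨w, b, hw⟩ := exists_hilbertBasis ℝ H
  refine ⟨J '' w, ?_, fun ρ ⟨C, c0, h⟩ => ?_, fun Φ => ?_⟩
  · rintro _ ⟨h, -, rfl⟩
    refine ⟨‖h‖ ^ 2, sq_nonneg _, fun f => ?_⟩
    rw [hJ, ← i2, ← mul_pow]
    exact sq_le_sq' (abs_le.1 (abs_real_inner_le_norm _ _)).1 (real_inner_le_norm _ _)
  · have k : ∀ f, ‖ρ.toLinearMap f‖ ≤ √C * ‖i f‖ := fun f => by
      refine abs_le.2 (abs_le_of_sq_le_sq' ?_ (by positivity))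
      rw [mul_pow, Real.sq_sqrt c0, i2]
      exact h f
    have k1 : J ((InnerProductSpace.toDual ℝ H).symm (ρ.toLinearMap.extendOfNorm i)) = ρ := by
      ext f
      rw [hJ, InnerProductSpace.toDual_symm_apply, LinearMap.extendOfNorm_eq i1 ⟨_, k⟩]; rfl
    rw [← k1]
    have := b.dense_span
    rw [hw, Subtype.range_coe] at this
    refine map_mem_closure J.continuous (s := Submodule.span ℝ w) (this.ge trivial) fun x hx => ?_
    exact Submodule.span_image J.toLinearMap ▸ Submodule.mem_map_of_mem hx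
  · have := (b.orthonormal.inner_products_summable ((InnerProductSpace.toDual ℝ H).symm
      (Φ ∘L J))).countable_support
    refine (this.image fun x => J x).mono ?_
    rintro _ ⟨⟨h, h1, rfl⟩, h2⟩
    refine ⟨⟨h, h1⟩, ?_, rfl⟩
    rw [mem_support, real_inner_comm, InnerProductSpace.toDual_symm_apply, hw]
    simpa using h2

end Pool.Agent.H.MP_ff7d48
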