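import Pool.Agent.H.MP_ff7d48.E

set_option autoImplicit false
open Set Filter Topology Function TopologicalSpace
open scoped BoundedContinuousFunction

namespace Pool.Agent.H.MP_ff7d48

theorem plA {E : Type} [NormedAddCommGroup E] [NormedSpace ℝ E] [CompleteSpace E] {Ps : E → Prop}
    {Hs Sg : E → E → Prop} (o : E →L[ℝ] ℝ) (p0 : Ps 0) (pa : ∀ {μ ν}, Ps μ → Ps ν → Ps (μ + ν))
    (pc : IsClosed {μ | Ps μ}) (pn : ∀ {μ}, Ps μ → ‖μ‖ ≤ o μ) (h0 : Hs 0 0)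
    (ha : ∀ {μ ρ ν τ}, Ps μ → Ps ν → Hs μ ρ → Hs ν τ → Hs (μ + ν) (ρ + τ))
    (hs : ∀ {μ ρ}, Hs μ ρ → ∀ c : ℝ, Hs μ (c • ρ)) (ph : ∀ {μ ρ}, Ps ρ → Ps (μ - ρ) → Hs μ ρ)
    (s0 : ∀ {μ}, Sg μ 0) (ss : ∀ {μ ν}, Sg μ ν → Sg ν μ)
    (sa : ∀ {μ ν τ}, Ps ν → Ps τ → Sg μ ν → Sg μ τ → Sg μ (ν + τ))
    (sn : ∀ {μ ν ρ τ}, Ps μ → Ps ν → Sg μ ν → Hs μ ρ → Hs ν τ → ‖ρ‖ ≤ ‖ρ + τ‖)
    (ns : ∀ {μ ν}, Ps μ → Ps ν → ¬Sg μ ν → ∃ ρ, Ps ρ ∧ Ps (μ - ρ) ∧ Ps (ν - ρ) ∧ 0 < o ρ)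
    (sz : ∀ {μ}, Ps μ → Sg μ μ → o μ ≤ 0) (jordan : ∀ ν, ∃ μ ρ, Ps μ ∧ Ps ρ ∧ ν = μ - ρ)
    (hb : ∀ {μ}, Ps μ → ∃ D : Set E, (∀ d ∈ D, Hs μ d) ∧
      (∀ ρ, Hs μ ρ → ρ ∈ closure (Submodule.span ℝ D : Set E)) ∧
      ∀ Φ : E →L[ℝ] ℝ, {d ∈ D | Φ d ≠ 0}.Countable) : Pl E := by
  obtain ⟨m, hm⟩ := zorn_subset
    {s : Set E | (∀ μ ∈ s, Ps μ ∧ 0 < o μ) ∧ s.Pairwise Sg} fun c c1 c2 =>
    ⟨⋃₀ c, ⟨fun μ ⟨s, s1, s2⟩ => (c1 s1).1 μ s2, (pairwise_sUnion c2.directedOn).2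
      fun s hs => (c1 hs).2⟩, fun s hs => subset_sUnion_of_mem hs⟩
  choose D d1 d2 d3 using fun i : m => hb (hm.prop.1 i i.2).1
  let W : Set m → Submodule ℝ E := fun I => Submodule.span ℝ (⋃ i ∈ I, D i)
  have w1 : ∀ I, ∀ x ∈ W I, ∃ μ, Ps μ ∧ Hs μ x ∧ ∀ ν, (∀ i ∈ I, Sg ν i) → Sg ν μ := fun I x hx => by
    induction hx using Submodule.span_induction with
    | mem x hx =>
      obtain ⟨i, i1, i2⟩ := mem_iUnion₂.1 hx
      exact ⟨i, (hm.prop.1 i i.2).1, d1 i x i2, fun ν h => h i i1⟩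
    | zero => exact ⟨0, p0, h0, fun _ _ => s0⟩
    | add x y _ _ h k =>
      obtain ⟨μ, h1, h2, h3⟩ := h
      obtain ⟨ν, k1, k2, k3⟩ := k
      exact ⟨_, pa h1 k1, ha h1 k1 h2 k2, fun τ h => sa h1 k1 (h3 τ h) (k3 τ h)⟩
    | smul c x _ h => exact h.imp fun μ h => ⟨h.1, hs h.2.1 c, h.2.2⟩
  have w2 : ∀ I, ∀ y ∈ W Iᶜ, ∀ x ∈ (W I).topologicalClosure, ‖x‖ ≤ ‖x + y‖ := fun I y hy =>
    closure_minimal (t := {x | ‖x‖ ≤ ‖x + y‖}) (fun x hx => by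
      obtain ⟨μ, h1, h2, h3⟩ := w1 _ x hx
      obtain ⟨ν, k1, k2, k3⟩ := w1 _ y hy
      exact sn h1 k1 (k3 μ fun j hj => ss (h3 j fun i hi => hm.prop.2 j.2 i.2 fun e =>
        hj (Subtype.ext e ▸ hi))) h2 k2) (isClosed_le (by fun_prop) (by fun_prop))
  have w3 : ∀ ν, Ps ν → ν ∈ (W univ).topologicalClosure := fun ν hν => by
    have cl : IsClosed {ρ | ρ ∈ (W univ).topologicalClosure ∧ Ps ρ ∧ Ps (ν - ρ)} :=
      (Submodule.isClosed_topologicalClosure _).inter (pc.inter (pc.preimage (continuous_sub_left ν)))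
    have := cl.completeSpace_coe
    obtain ⟨⟨y, y1, y2, y3⟩, -, hy⟩ := Pool.Agent.Lib.helper23.Eke.ekeland
      (fun ρ : {ρ | ρ ∈ (W univ).topologicalClosure ∧ Ps ρ ∧ Ps (ν - ρ)} => o ρ.1) (by fun_prop)
      (B := o ν) (fun ρ => sub_nonneg.1 (((norm_nonneg _).trans (pn ρ.2.2.2)).trans_eq (map_sub _ _ _)))
      ⟨0, zero_mem _, p0, by simpa⟩ one_half_pos
    have k : ∀ i ∈ m, Sg i (ν - y) := fun i hi => by_contra fun k => by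
      obtain ⟨ρ, r1, r2, r3, r4⟩ := ns (hm.prop.1 i hi).1 y3 k
      have := hy ⟨y + ρ, add_mem y1 (closure_mono (Submodule.span_mono (subset_biUnion_of_mem
        (u := D) (mem_univ _))) (d2 ⟨i, hi⟩ ρ (ph r1 r2))), pa y2 r1, sub_sub ν y ρ ▸ r3⟩
      rw [Subtype.dist_eq, dist_self_add_left] at this
      linarith [pn r1, map_add o y ρ]
    have k1 : o (ν - y) ≤ 0 := not_lt.1 fun k1 => k1.not_ge (sz y3 (k _ (hm.eq_of_subset
      ⟨forall_mem_insert.2 ⟨⟨y3, k1⟩, hm.prop.1⟩, hm.prop.2.insert fun i hi _ =>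
        ⟨ss (k i hi), k i hi⟩⟩ (subset_insert _ _) ▸ mem_insert _ _)))
    rwa [sub_eq_zero.1 (norm_le_zero_iff.1 ((pn y3).trans k1))]
  have hM : Dense (Submodule.span ℝ (⋃ i ∈ univ, D i) : Set E) := fun ν => by
    obtain ⟨μ, ρ, h1, h2, rfl⟩ := jordan ν
    exact (W univ).topologicalClosure.sub_mem (w3 μ h1) (w3 ρ h2)
  refine ⟨_, hM, 1, one_pos, fun x => ?_⟩
  obtain ⟨C, c1, c2, c3⟩ := sepc hM (finite_singleton x).isSeparable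
  choose i _ hi using fun c : C => mem_iUnion₂.1 (c1 c.2)
  have := c2.to_subtype
  have hx : x ∈ (W (range i)).topologicalClosure := closure_mono (Submodule.span_mono fun c hc =>
    mem_biUnion (mem_range_self ⟨c, hc⟩) (hi ⟨c, hc⟩)) (c3 rfl)
  obtain ⟨L, l1, l2⟩ := Pool.Agent.Lib.helper23.Eke.sandwich norm continuous_norm convexOn_univ_norm
    norm_zero ((LinearMap.toSpanSingleton ℝ _ x).coprod (W (range i)ᶜ).subtype)
    (‖x‖ • LinearMap.fst ℝ _ _) fun p => le_trans (show ‖x‖ * p.1 ≤ ‖p.1 • x‖ by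
      rw [norm_smul, mul_comm ‖p.1‖]
      exact mul_le_mul_of_nonneg_left (le_abs_self _) (norm_nonneg _))
      (w2 _ _ p.2.2 _ (Submodule.smul_mem _ p.1 hx))
  refine ⟨L, ((countable_range i).biUnion fun j _ => d3 j L).mono ?_, L.opNorm_le_bound zero_le_one
    fun y => abs_le.2 ⟨by have := l2 (-y); rw [map_neg, norm_neg] at this; linarith,
      by simpa using l2 y⟩, le_trans (by simpa using (l1 (1, 0)).ge) (le_abs_self _)⟩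
  rintro d ⟨h1, h2⟩
  obtain ⟨j, -, hj⟩ := mem_iUnion₂.1 h1
  refine mem_biUnion (by_contra fun k => h2 ?_) ⟨hj, h2⟩
  simpa using l1 (0, ⟨d, Submodule.subset_span (mem_biUnion k hj)⟩)

theorem plB (α : Type) [TopologicalSpace α] : Pl ((α →ᵇ ℝ) →L[ℝ] ℝ) :=
  plA (Ps := Ps) (Hs := Hs) (Sg := Sg) (ContinuousLinearMap.apply ℝ ℝ 1) (fun _ _ => le_rfl) Ps.add
    (by
      simp only [Ps, ofPred_forall]
      exact isClosed_iInter fun f => isClosed_iInter fun _ => isClosed_le continuous_const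
        (ContinuousLinearMap.apply ℝ ℝ f).continuous) Ps.norm ⟨0, le_rfl, by simp⟩ Hs.add Hs.smul
    Ps.hs Sg.zero Sg.symm Sg.add Sg.norm notSg (fun p k => not_lt.1 fun k1 =>
      have ⟨_, _, _, _, h3, h4⟩ := k _ k1
      h4.not_ge ((p.mono h3).trans_eq (map_add _ _ _))) jordan hb

variable {X Y : Type} [NormedAddCommGroup X] [NormedSpace ℝ X] [NormedAddCommGroup Y]
  [NormedSpace ℝ Y]

theorem Pl.eqv (h : Pl X) (T : X ≃L[ℝ] Y) : Pl Y := by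
  obtain ⟨M, h1, c, c0, h2⟩ := h
  obtain ⟨a, a0, ha⟩ := (T : X →L[ℝ] Y).bound
  obtain ⟨b, b0, hb⟩ := (T.symm : Y →L[ℝ] X).bound
  refine ⟨T '' M, ?_, c / a / b, by positivity, fun y => ?_⟩
  · rw [show Submodule.span ℝ (T '' M) = _ from Submodule.span_image T.toLinearEquiv.toLinearMap]
    exact T.surjective.denseRange.dense_image T.continuous h1
  obtain ⟨f, f1, f2, f3⟩ := h2 (T.symm y)
  refine ⟨b⁻¹ • f ∘L T.symm, (f1.image T).mono ?_, ContinuousLinearMap.opNorm_le_bound _ zero_le_one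
    fun z => ?_, ?_⟩
  · rintro _ ⟨⟨x, hx, rfl⟩, k⟩
    exact ⟨x, ⟨hx, fun e => k (by simp [e])⟩, rfl⟩
  · rw [smul_apply, norm_smul, norm_inv, Real.norm_of_nonneg b0.le, inv_mul_le_iff₀ b0, one_mul]
    exact (f.le_of_opNorm_le f2 _).trans ((one_mul _).trans_le (hb z))
  · have := ha (T.symm y)
    simp only [ContinuousLinearEquiv.coe_coe, T.apply_symm_apply] at this
    rw [smul_apply, smul_eq_mul, abs_mul, abs_inv, abs_of_pos b0, le_inv_mul_iff₀ b0, ← mul_assoc,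
      mul_div_cancel₀ _ b0.ne', div_mul_eq_mul_div, div_le_iff₀ a0]
    exact (mul_le_mul_of_nonneg_left this c0.le).trans (by
      rw [mul_left_comm, mul_comm _ a]; exact mul_le_mul_of_nonneg_left f3 a0.le)

end Pool.Agent.H.MP_ff7d48
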