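import Pool.Agent.H.MP_ff7d48.F

set_option autoImplicit false
open Set Filter Topology Function TopologicalSpace
open scoped BoundedContinuousFunction
open Pool.Agent.Lib.helper23.Ell1

namespace Pool.Agent.H.MP_ff7d48

theorem clim {Y : Type} [NormedAddCommGroup Y] [NormedSpace ℝ Y] (g : ℕ → Y →L[ℝ] ℝ) {C : ℝ}
    (h : ∀ n, ‖g n‖ ≤ C) : ∃ f : Y →L[ℝ] ℝ, ‖f‖ ≤ C ∧
      ∀ v, Tendsto (fun n => g n v) (hyperfilter ℕ) (𝓝 (f v)) := by
  choose f hf using fun v => ulim fun n => (g n).le_of_opNorm_le (h n) v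
  exact ⟨.ofTendstoOfBoundedRange f g (tendsto_pi_nhds.2 hf) (isBounded_iff_forall_norm_le.2
    ⟨C, forall_mem_range.2 h⟩), ContinuousLinearMap.opNorm_le_bound _
      ((norm_nonneg (g 0)).trans (h 0)) fun v => le_of_tendsto' (hf v).norm fun n =>
        (g n).le_of_opNorm_le (h n) v, hf⟩

def lev : Ga → ℕ
  | .inl (p, k) => p.length + k
  | .inr (_, t) => t.length

variable (A : (ℕ → Bool) → Set ℕ)

theorem semi (L : L1 ℝ Ga →L[ℝ] L1 ℝ Ga) {n : ℕ} (h : ∀ γ, L (e ℝ γ) = lam A (n - lev γ) γ)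
    (γ : Ga) (j : ℕ) (hn : lev γ + j ≤ n) : L (lam A j γ) = L (e ℝ γ) := by
  obtain ⟨i, rfl⟩ := Nat.exists_eq_add_of_le hn
  have h1 : ∀ p k, p.length + k = lev γ + j → L (y p k) =
      y p (k + i) - dn k p fun a => y (a.map some) i := fun p k hk => by
    rw [y, h, lev, hk, Nat.add_sub_cancel_left, lam]
  rw [h, add_assoc, Nat.add_sub_cancel_left]
  rcases γ with ⟨p, k⟩ | ⟨b, t⟩
  · rw [lam, map_sub, dn_map, h1 _ _ (add_assoc _ _ _).symm, dn_congr _ _ fun a ha => h1 _ _ (by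
      rw [List.length_map, ha, lev, add_comm k]), dn_sub, dn_dn, lam, add_assoc]
    abel
  · have h2 : ∀ a, a.length = j + (t.map some).length → L (z b a - y (msk (A b) a) 0) =
        dn i (a.map some) (fun a => z b a - y (msk (A b) a) 0) +
          fill (msk (A b) a) fun a => y (a.map some) i := fun a ha => by
      rw [List.length_map, add_comm] at ha
      rw [map_sub, h1 _ _ (by rw [msk_len, ha]; rfl), z, h, lev, lev, ha, Nat.add_sub_cancel_left, lam,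
        zero_add, dn_zero]
      abel
    rw [lam, map_add, dn_map, dn_congr _ _ h2, h1 _ _ (by rw [msk_len]; rfl), dn_add, dn_dn, dn_msk,
      lam]
    abel

theorem exE : ∃ E : (Z A →L[ℝ] ℝ) →L[ℝ] L1 ℝ Ga →L[ℝ] ℝ, ∀ φ (v : Z A), E φ v = φ v := by
  choose P p1 p2 using fun n => lift' four_pos _ fun γ => rel_le A γ (n - lev γ)
  choose L _ l2 using fun n => lift' three_pos _ fun γ => lam_le A (n - lev γ) γ
  have p3 : ∀ n, (Z A).subtypeL ∘L P n = 1 - L n := fun n => ext fun γ => by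
    rw [ContinuousLinearMap.comp_apply, p2, sub_apply, l2]; rfl
  choose v v1 v2 using fun γ => clim (Y := Z A →L[ℝ] ℝ)
    (fun n => ContinuousLinearMap.apply ℝ ℝ (P n (e ℝ γ))) (C := 4)
    fun n => ContinuousLinearMap.opNorm_le_bound _ zero_le_four fun φ =>
      (φ.le_opNorm_of_le ((congrArg norm (p2 n γ)).trans_le (rel_le _ _ _))).trans_eq (mul_comm _ _)
  obtain ⟨T, -, t2⟩ := lift' four_pos v v1
  refine ⟨T.flip, fun φ => ?_⟩
  obtain ⟨f, -, f2⟩ := clim (fun n => φ ∘L P n) fun n => (φ.opNorm_comp_le _).trans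
    (mul_le_mul_of_nonneg_left (p1 n) (norm_nonneg φ))
  obtain rfl : T.flip φ = f := ext fun γ => by
    rw [ContinuousLinearMap.flip_apply, t2]; exact tendsto_nhds_unique (v2 γ φ) (f2 _)
  obtain ⟨g, g1, -⟩ := exists_extension_norm_eq (Z A) φ
  refine fun w => (sub_eq_zero.1 (kill A (T.flip φ - g) (fun γ j => ?_) w)).trans (g1 w)
  rw [eq_comm, ← sub_eq_zero, ← map_sub, sub_apply, sub_eq_zero]
  refine tendsto_nhds_unique (f2 _) (tendsto_const_nhds.congr' ?_)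
  filter_upwards [(eventually_ge_atTop (lev γ + j)).filter_mono Nat.hyperfilter_le_atTop] with n hn
  refine (g1 (rel A γ j)).trans (congrArg φ (Subtype.ext ?_))
  have := congrArg (· (e ℝ γ - lam A j γ)) (p3 n)
  simp only [sub_apply, map_sub (L n), semi A _ (l2 n) γ j hn, sub_self, sub_zero] at this
  exact this.symm

theorem shift {I V : Type} [DecidableEq I] [TopologicalSpace (ℕ × I)] [DiscreteTopology (ℕ × I)]
    [NormedAddCommGroup V] [NormedSpace ℝ V] (i : V →L[ℝ] L1 ℝ I)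
    (E : (V →L[ℝ] ℝ) →L[ℝ] L1 ℝ I →L[ℝ] ℝ) (h : ∀ φ, E φ ∘L i = φ) :
    Nonempty ((V × L1 ℝ (ℕ × I) →L[ℝ] ℝ) ≃L[ℝ] (ℕ × I →ᵇ ℝ)) := by
  choose j j1 j2 using fun n : ℕ => lift' one_pos (fun γ : I => e ℝ (n, γ)) fun _ => (norm_e _).le
  let c : ℕ → L1 ℝ I →L[ℝ] V × L1 ℝ (ℕ × I) := fun n => .inr ℝ _ _ ∘L j n
  let u : ℕ → V →L[ℝ] V × L1 ℝ (ℕ × I) := fun n => n.casesOn (.inl ℝ _ _) fun n => c n ∘L i
  let a : (V × L1 ℝ (ℕ × I) →L[ℝ] ℝ) → ℕ → L1 ℝ I →L[ℝ] ℝ := fun Φ n =>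
    Φ ∘L c n - E (Φ ∘L c n ∘L i) + E (Φ ∘L u n)
  have c1 : ∀ n, ‖c n‖ ≤ 1 := fun n => ContinuousLinearMap.opNorm_le_bound _ zero_le_one fun x => by
    simpa [c] using (j n).le_of_opNorm_le (j1 n) x
  have c2 : ∀ n, ‖c n ∘L i‖ ≤ ‖i‖ + 1 := fun n => ((c n).opNorm_comp_le _).trans
    ((mul_le_of_le_one_left i.opNorm_nonneg (c1 n)).trans (le_add_of_nonneg_right zero_le_one))
  have c3 : ∀ n, ‖u n‖ ≤ ‖i‖ + 1 := by
    rintro (_ | n)
    exacts [(ContinuousLinearMap.opNorm_le_bound _ zero_le_one fun x => by simp [u]).trans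
      (le_add_of_nonneg_left i.opNorm_nonneg), c2 n]
  have b : ∀ {W : Type} [NormedAddCommGroup W] [NormedSpace ℝ W] (Φ : W →L[ℝ] ℝ) (s : V →L[ℝ] W)
      {C : ℝ}, ‖s‖ ≤ C → ‖E (Φ ∘L s)‖ ≤ ‖E‖ * C * ‖Φ‖ := fun Φ s C k => by
    rw [mul_assoc, mul_comm C]
    exact E.le_opNorm_of_le ((Φ.opNorm_comp_le _).trans
      (mul_le_mul_of_nonneg_left k Φ.opNorm_nonneg))
  have b1 : ∀ (φ : L1 ℝ I →L[ℝ] ℝ) γ, ‖φ (e ℝ γ)‖ ≤ ‖φ‖ := fun φ γ =>
    φ.unit_le_opNorm _ (norm_e _).le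
  have a1 : ∀ Φ (k : ℕ × I), ‖a Φ k.1 (e ℝ k.2)‖ ≤ (1 + ‖E‖ * (‖i‖ + 1) + ‖E‖ * (‖i‖ + 1)) * ‖Φ‖ :=
    fun Φ k => (b1 _ _).trans ((norm_add_le_of_le (norm_sub_le_of_le ((Φ.opNorm_comp_le _).trans
      (mul_le_of_le_one_right Φ.opNorm_nonneg (c1 _))) (b Φ _ (c2 _))) (b Φ _ (c3 _))).trans_eq
      (by ring))
  let T : (V × L1 ℝ (ℕ × I) →L[ℝ] ℝ) →ₗ[ℝ] (ℕ × I →ᵇ ℝ) :=
    { toFun := fun Φ => .ofNormedAddCommGroupDiscrete _ _ (a1 Φ)
      map_add' := fun Φ Ψ => by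
        ext k; simp [a, ContinuousLinearMap.add_comp]; ring
      map_smul' := fun r Φ => by
        ext k; simp [a, ContinuousLinearMap.smul_comp]; ring }
  have a2 : ∀ Φ n, a Φ n ∘L i = Φ ∘L u n := fun Φ n => by
    simp only [a, ContinuousLinearMap.add_comp, ContinuousLinearMap.sub_comp, h]
    exact (congrArg (· + _) (sub_self _)).trans (zero_add _)
  refine ⟨.ofBijective (T.mkContinuous _ fun Φ => (BoundedContinuousFunction.norm_le
    (by positivity)).2 (a1 Φ)) (LinearMap.ker_eq_bot'.2 fun Φ k => ?_)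
    (LinearMap.range_eq_top.2 fun f => ?_)⟩
  · have k1 : ∀ n, a Φ n = 0 := fun n => ext fun γ => congrArg (· (n, γ)) k
    have k2 : ∀ n, Φ ∘L u n = 0 := fun n => by rw [← a2, k1, ContinuousLinearMap.zero_comp]
    have k3 : ∀ n, Φ ∘L c n = 0 := fun n => by
      have := k1 n
      simp only [a, k2 n, show Φ ∘L c n ∘L i = 0 from k2 (n + 1), map_zero, sub_zero, add_zero] at this
      exact this
    refine ContinuousLinearMap.prod_ext (k2 0) (ext fun k => ?_)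
    simpa [c, j2] using congrArg (· (e ℝ k.2)) (k3 k.1)
  · choose s s1 s2 using fun n => lift' (C := ‖f‖ + 1) (by positivity) (fun γ => f (n, γ)) fun γ =>
      (f.norm_coe_le_norm _).trans (le_add_of_nonneg_right zero_le_one)
    have s3 : ∀ n, ‖E (s n ∘L i)‖ ≤ ‖E‖ * ‖i‖ * (‖f‖ + 1) := fun n => (b _ _ le_rfl).trans
      (mul_le_mul_of_nonneg_left (s1 n) (by positivity))
    obtain ⟨S, -, hS⟩ := lift' (by positivity) (fun k : ℕ × I =>
      (s k.1 - E (s k.1 ∘L i) + E (s (k.1 + 1) ∘L i)) (e ℝ k.2)) fun k => (b1 _ _).trans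
        (norm_add_le_of_le (norm_sub_le_of_le (s1 _) (s3 _)) (s3 _))
    have k1 : ∀ n, (s 0 ∘L i).coprod S ∘L c n = s n - E (s n ∘L i) + E (s (n + 1) ∘L i) := fun n =>
      ext fun γ => by simpa [c, j2] using hS (n, γ)
    have k2 : ∀ n, (s 0 ∘L i).coprod S ∘L c n ∘L i = s (n + 1) ∘L i := fun n => by
      rw [← ContinuousLinearMap.comp_assoc, k1]
      simp only [ContinuousLinearMap.add_comp, ContinuousLinearMap.sub_comp, h, sub_self, zero_add]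
    have k3 : ∀ n, (s 0 ∘L i).coprod S ∘L u n = s n ∘L i := by
      rintro (_ | n)
      exacts [ContinuousLinearMap.coprod_comp_inl _ _, k2 n]
    refine ⟨(s 0 ∘L i).coprod S, BoundedContinuousFunction.ext fun k => ?_⟩
    change a _ k.1 (e ℝ k.2) = _
    simp only [a, k1, k2, k3, add_sub_cancel_right, sub_add_cancel, s2]

theorem Pl.bid {X α : Type} [NormedAddCommGroup X] [NormedSpace ℝ X] [TopologicalSpace α]
    (T : (X →L[ℝ] ℝ) ≃L[ℝ] (α →ᵇ ℝ)) : Pl ((X →L[ℝ] ℝ) →L[ℝ] ℝ) :=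
  (plB α).eqv (T.symm.arrowCongr (.refl ℝ ℝ))

theorem exX : ∃ (X : Type) (_ : NormedAddCommGroup X) (_ : NormedSpace ℝ X) (_ : CompleteSpace X),
    Pl ((X →L[ℝ] ℝ) →L[ℝ] ℝ) ∧ ¬SCP X := by
  obtain ⟨A, h1, h2⟩ := adf
  obtain ⟨E, hE⟩ := exE A
  let : TopologicalSpace (ℕ × Ga) := ⊥
  have : DiscreteTopology (ℕ × Ga) := ⟨rfl⟩
  obtain ⟨T⟩ := shift (Z A).subtypeL E fun φ => ContinuousLinearMap.ext (hE φ)
  exact ⟨Z A × L1 ℝ (ℕ × Ga), inferInstance, inferInstance, inferInstance,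
    .bid T, notSCP h1 h2 (.inl ℝ _ _) (.fst ℝ _ _) fun _ => rfl⟩

end Pool.Agent.H.MP_ff7d48
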